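import Pool.Agent.QEP.Stmts

/-!
# QEP, row UPP: the upper bounds
-/

namespace Pool.Agent.QEP.H56

open scoped ComplexConjugate

theorem upp : UPPStmt := by
  intro k C h T g hC H
  have hC0 : 0 ≤ C := by linarith
  have hk0 : (0 : ℝ) ≤ k := Nat.cast_nonneg k
  have hCk : 0 ≤ C * k := mul_nonneg hC0 hk0
  have hC2k : 0 ≤ C ^ 2 * k := mul_nonneg (sq_nonneg C) hk0
  refine ⟨5 * (C ^ 2 * k) + 3 * (C * k) + 5, by linarith, ?_⟩
  intro s s' t t' r r' hr hr'
  obtain ⟨S, hS⟩ : ∃ S : ℝ, S = ∑ i, (s i - s' i) ^ 2 := ⟨_, rfl⟩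
  have hS0 : 0 ≤ S := by
    rw [hS]
    exact Finset.sum_nonneg (fun i _ => sq_nonneg _)
  obtain ⟨a, ha⟩ : ∃ a : ℝ, a = ∑ i, |s i - s' i| := ⟨_, rfl⟩
  have ha0 : 0 ≤ a := by
    rw [ha]
    exact Finset.sum_nonneg (fun i _ => abs_nonneg _)
  have ha2 : a ^ 2 ≤ k * S := by
    rw [ha, hS]
    have h0 := sq_sum_le_card_mul_sum_sq (s := Finset.univ) (f := fun i : Fin k => |s i - s' i|)
    simpa [sq_abs] using h0
  rw [← hS]
  obtain ⟨Q, hQ⟩ : ∃ Q : ℝ, Q = S + (t - t') ^ 2 + r ^ 2 + r' ^ 2 := ⟨_, rfl⟩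
  have hT0 : 0 ≤ (t - t') ^ 2 := sq_nonneg _
  rw [← hQ]
  constructor
  · obtain ⟨Z, hZ⟩ : ∃ Z : ℝ, Z = ∑ i, ‖h (s i) - h (s' i)‖ ^ 2 := ⟨_, rfl⟩
    have hZ0 : 0 ≤ Z := by
      rw [hZ]
      exact Finset.sum_nonneg (fun i _ => sq_nonneg _)
    have hZ1 : Z ≤ C * a := by
      rw [hZ, ha, Finset.mul_sum]
      exact Finset.sum_le_sum (fun i _ => (H (s i) (s' i) r r' hr hr').1)
    obtain ⟨X, hX⟩ : ∃ X : ℝ, X = ∑ i, (T (s i) - T (s' i) +
      2 * (h (s i) * conj (h (s' i))).im) := ⟨_, rfl⟩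
    have hX1 : |X| ≤ C * a := by
      rw [hX, ha, Finset.mul_sum]
      refine (Finset.abs_sum_le_sum_abs _ _).trans ?_
      exact Finset.sum_le_sum (fun i _ => (H (s i) (s' i) r r' hr hr').2.1)
    have hW : (t + ∑ i, T (s i)) - (t' + ∑ i, T (s' i)) +
        2 * (∑ i, h (s i) * conj (h (s' i))).im = (t - t') + X := by
      rw [hX, Finset.sum_add_distrib, Finset.sum_sub_distrib, ← Finset.mul_sum, Complex.im_sum]
      ring
    rw [← hZ, hW]
    have hX2 : X ^ 2 ≤ (C * a) ^ 2 := by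
      rw [← sq_abs X]
      exact pow_le_pow_left₀ (abs_nonneg X) hX1 2
    have hZ2 : Z ^ 2 ≤ (C * a) ^ 2 := pow_le_pow_left₀ hZ0 hZ1 2
    have hCa : (C * a) ^ 2 ≤ C ^ 2 * k * S := by
      rw [mul_pow, mul_assoc]
      exact mul_le_mul_of_nonneg_left ha2 (sq_nonneg C)
    have e1 : (Z + r + r') ^ 2 ≤ 3 * (Z ^ 2 + r ^ 2 + r' ^ 2) := by
      nlinarith [sq_nonneg (Z - r), sq_nonneg (Z - r'), sq_nonneg (r - r')]
    have e2 : ((t - t') + X) ^ 2 ≤ 2 * ((t - t') ^ 2 + X ^ 2) := by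
      nlinarith [sq_nonneg ((t - t') - X)]
    have e3 : C ^ 2 * k * S ≤ C ^ 2 * k * Q := by
      refine mul_le_mul_of_nonneg_left ?_ hC2k
      rw [hQ]
      nlinarith [sq_nonneg r, sq_nonneg r']
    have e4 : 0 ≤ 3 * (C * k) * Q := by
      refine mul_nonneg (by linarith) ?_
      rw [hQ]
      nlinarith [sq_nonneg r, sq_nonneg r']
    have e5 : 3 * (r ^ 2 + r' ^ 2) + 2 * (t - t') ^ 2 ≤ 5 * Q := by
      rw [hQ]
      nlinarith [sq_nonneg r, sq_nonneg r']
    calc (Z + r + r') ^ 2 + ((t - t') + X) ^ 2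
        ≤ 3 * (Z ^ 2 + r ^ 2 + r' ^ 2) + 2 * ((t - t') ^ 2 + X ^ 2) := add_le_add e1 e2
      _ ≤ 5 * (C ^ 2 * k * Q) + (3 * (r ^ 2 + r' ^ 2) + 2 * (t - t') ^ 2) := by linarith
      _ ≤ (5 * (C ^ 2 * k) + 3 * (C * k) + 5) * Q := by linarith
  · have hrr : 0 < r * r' := mul_pos hr hr'
    obtain ⟨q, hq⟩ : ∃ q : ℝ, q = Q / (r * r') := ⟨_, rfl⟩
    rw [← hq]
    have hq2 : 2 ≤ q := by
      rw [hq, le_div_iff₀ hrr, hQ]
      nlinarith [sq_nonneg (r - r')]
    have hq1 : r / r' ≤ q := by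
      rw [hq, div_le_div_iff₀ hr' hrr, hQ]
      nlinarith [sq_nonneg r, sq_nonneg r', mul_nonneg (add_nonneg hS0 hT0) hr'.le,
        mul_nonneg (sq_nonneg r') hr'.le]
    have hq1' : r' / r ≤ q := by
      rw [hq, div_le_div_iff₀ hr hrr, hQ]
      nlinarith [sq_nonneg r, sq_nonneg r', mul_nonneg (add_nonneg hS0 hT0) hr.le,
        mul_nonneg (sq_nonneg r) hr.le]
    have hlq : 0 ≤ Real.log q := Real.log_nonneg (by linarith)
    have hl1 : |Real.log (r / r')| ≤ Real.log q := by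
      rw [abs_le]
      constructor
      · have h1 : Real.log (r' / r) ≤ Real.log q := Real.log_le_log (div_pos hr' hr) hq1'
        have h2 : Real.log (r' / r) = - Real.log (r / r') := by
          rw [← Real.log_inv, inv_div]
        linarith
      · exact Real.log_le_log (div_pos hr hr') hq1
    have key : ∀ i, ‖g (s i) r - g (s' i) r'‖ ≤ 3 * C * (1 + Real.log q) := by
      intro i
      have h1 := (H (s i) (s' i) r r' hr hr').2.2.1
      have h2 : (s i - s' i) ^ 2 ≤ S := by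
        rw [hS]
        exact Finset.single_le_sum (f := fun i => (s i - s' i) ^ 2)
          (fun i _ => sq_nonneg _) (Finset.mem_univ i)
      have h3 : |s i - s' i| / r ≤ q := by
        have h4 : (|s i - s' i| / r) ^ 2 ≤ q ^ 2 := by
          have h5 : (|s i - s' i| / r) ^ 2 = ((s i - s' i) ^ 2 / (r * r')) * (r' / r) := by
            rw [div_pow, sq_abs]
            field_simp
          rw [h5, sq q]
          refine mul_le_mul ?_ hq1' (div_pos hr' hr).le (by linarith)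
          rw [hq]
          refine div_le_div_of_nonneg_right ?_ hrr.le
          rw [hQ]
          nlinarith [sq_nonneg r, sq_nonneg r']
        exact le_of_sq_le_sq h4 (by linarith)
      have h6 : Real.log (1 + |s i - s' i| / r) ≤ 2 * Real.log q := by
        have h7 : 2 * Real.log q = Real.log (q ^ 2) := by
          rw [Real.log_pow]
          norm_num
        rw [h7]
        refine Real.log_le_log ?_ ?_
        · have : 0 ≤ |s i - s' i| / r := div_nonneg (abs_nonneg _) hr.le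
          linarith
        · nlinarith
      calc ‖g (s i) r - g (s' i) r'‖
          ≤ C * (1 + |Real.log (r / r')| + Real.log (1 + |s i - s' i| / r)) := h1
        _ ≤ C * (3 * (1 + Real.log q)) := by
          refine mul_le_mul_of_nonneg_left ?_ hC0
          linarith
        _ = 3 * C * (1 + Real.log q) := by ring
    calc ∑ i, ‖g (s i) r - g (s' i) r'‖ ≤ ∑ _i : Fin k, 3 * C * (1 + Real.log q) :=
          Finset.sum_le_sum (fun i _ => key i)
      _ = (3 * (C * k)) * (1 + Real.log q) := by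
          rw [Finset.sum_const, Finset.card_univ, Fintype.card_fin, nsmul_eq_mul]
          ring
      _ ≤ (5 * (C ^ 2 * k) + 3 * (C * k) + 5) * (1 + Real.log q) := by
          refine mul_le_mul_of_nonneg_right ?_ (by linarith)
          linarith

end Pool.Agent.QEP.H56
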